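import Pool.Agent.SumProd339.GenOne

set_option autoImplicit false

/-!
# Consistent systems with one essential addition equation have a solution bounded by `2^(2^(n-2))`
-/

namespace Pool.Agent.Results.MP_4c3a42_al.OneAddition

open Pool.Agent.SumProd339

/-- If the system `T ⊆ E_n` has a solution `x ∈ ℂⁿ` such that all addition equations of `T`, with at
most one exception, are doublings `x_i + x_i = x_k` or have a zero coordinate at `x`, then `T` has a
solution in `ℂⁿ` all of whose coordinates have modulus at most `2^(2^(n-2))`. -/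
theorem result (n : ℕ) (T : Set (Eqn n)) (x : Fin n → ℂ) (hx : IsSol T x)
    (hone : OneAddition T x) :
    ∃ z : Fin n → ℂ, IsSol T z ∧ ∀ i, ‖z i‖ ≤ (2 : ℝ) ^ ((2 : ℝ) ^ ((n : ℝ) - 2)) := by
  by_cases hone' : ∃ i₁, Eqn.one i₁ ∈ T
  · obtain ⟨i₁, h1⟩ := hone'
    obtain ⟨z, hz, hb⟩ := exists_bounded T x hx hone {i₁} (by simp [h1])
    refine ⟨z, hz, fun i => ?_⟩
    have h := hb i
    have e : (n : ℝ) - (({i₁} : Finset (Fin n)).card : ℝ) - 1 = (n : ℝ) - 2 := by
      rw [Finset.card_singleton]
      push_cast
      ring
    rw [e] at h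
    exact h
  · push Not at hone'
    refine ⟨fun _ => 0, ?_, fun i => ?_⟩
    · intro e he
      cases e with
      | one j => exact absurd he (hone' j)
      | add j k l => simp [Eqn.Holds]
      | mul j k l => simp [Eqn.Holds]
    · rw [norm_zero]
      positivity

end Pool.Agent.Results.MP_4c3a42_al.OneAddition
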