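import Pool.Agent.SumProd339.Isolated

set_option autoImplicit false

/-!
# Every system with a tame solution has a solution bounded by `2^(2^(n-2))`
-/

namespace Pool.Agent.Results.MP_4c3a42_al.TameSystems

open Pool.Agent.SumProd339

lemma zero_sol {n : ℕ} (T : Set (Eqn n)) (h : ∀ i, Eqn.one i ∉ T) : IsSol T (fun _ => 0) := by
  intro e he
  cases e with
  | one j => exact absurd he (h j)
  | add j k l => simp [Eqn.Holds]
  | mul j k l => simp [Eqn.Holds]

/-- If the system `T ⊆ E_n` has a solution `x` which is tame for `T`, then `T` has a solution of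
the form `(c_1 x_1, …, c_n x_n)` with real `c_i ≥ 0` (so a real one if `x` is real), all of whose
coordinates have absolute value at most `2^(2^(n-2))`. -/
theorem result (n : ℕ) (T : Set (Eqn n)) (x : Fin n → ℂ) (hx : IsSol T x) (ht : Tame T x) :
    ∃ c : Fin n → ℝ, (∀ i, 0 ≤ c i) ∧ IsSol T (fun i => (c i : ℂ) * x i) ∧
      ∀ i, ‖(c i : ℂ) * x i‖ ≤ (2 : ℝ) ^ ((2 : ℝ) ^ ((n : ℝ) - 2)) := by
  by_cases hone : ∃ i₁, Eqn.one i₁ ∈ T
  · obtain ⟨i₁, h1⟩ := hone
    have e : (n : ℝ) - (({i₁} : Finset (Fin n)).card : ℝ) - 1 = (n : ℝ) - 2 := by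
      rw [Finset.card_singleton]
      push_cast
      ring
    obtain ⟨w, U, hsol, hU, _, hspan, _⟩ := exists_move T x hx ht
    have ecomm : (fun i => ((Real.exp (w i) : ℝ) : ℂ) * x i) =
        fun i => x i * ((Real.exp (w i) : ℝ) : ℂ) := funext fun i => mul_comm _ _
    refine ⟨fun i => Real.exp (w i), fun i => (Real.exp_pos _).le, ?_, fun i => ?_⟩
    · rw [ecomm]
      exact hsol
    · have h := lead_bound T _ hsol U hU {i₁} (by simp [h1]) hspan i
      rw [e] at h
      rw [mul_comm]
      exact h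
  · push Not at hone
    refine ⟨fun _ => 0, fun _ => le_refl _, by simpa using zero_sol T hone, fun i => ?_⟩
    simp only [Complex.ofReal_zero, zero_mul, norm_zero]
    positivity

end Pool.Agent.Results.MP_4c3a42_al.TameSystems
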